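import Pool.Agent.Helper79.UN.NGoals
import Pool.Agent.Helper79.UN.Lib

/-!
# MP_57a173_lc, packet LGZ: the projection is not a Borel set with a code in the ground model
-/

noncomputable section

namespace UN.PkLGZ

open Pool.Agent.Helper97.Ku NU UL

theorem bool {L : Type} [CompleteBooleanAlgebra L] (k p c : L) :
    k ⊓ (iffV p c)ᶜ ⊓ (k ⇨ iffV (k ⊓ p) c) ≤ ⊥ := by
  have h1 : k ⊓ (k ⇨ iffV (k ⊓ p) c) ≤ iffV p c := by
    have h0 : k ⊓ (k ⇨ iffV (k ⊓ p) c) ≤ iffV (k ⊓ p) c := by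
      rw [inf_comm]
      exact himp_inf_le
    refine le_inf ?_ ?_
    · rw [le_himp_iff]
      have h2 : k ⊓ (k ⇨ iffV (k ⊓ p) c) ⊓ p ≤ ((k ⊓ p) ⇨ c) ⊓ (k ⊓ p) :=
        le_inf (le_trans inf_le_left (le_trans h0 inf_le_left))
          (le_inf (le_trans inf_le_left inf_le_left) inf_le_right)
      exact le_trans h2 himp_inf_le
    · rw [le_himp_iff]
      have h2 : k ⊓ (k ⇨ iffV (k ⊓ p) c) ⊓ c ≤ (c ⇨ (k ⊓ p)) ⊓ c :=
        inf_le_inf_right _ (le_trans h0 inf_le_right)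
      exact le_trans h2 (le_trans himp_inf_le inf_le_right)
  have h3 : k ⊓ (iffV p c)ᶜ ⊓ (k ⇨ iffV (k ⊓ p) c) ≤ iffV p c ⊓ (iffV p c)ᶜ := by
    refine le_inf (le_trans ?_ h1) (le_trans inf_le_left inf_le_right)
    exact inf_le_inf_right _ inf_le_left
  rw [inf_compl_self] at h3
  exact h3

theorem lgz_pf (cmp_ : U_CMP) (ex2 : U_EX2) : U_LGZ := by
  intro L _ J v K A W b hb
  have hpr : BSet.Ext (fun x : BSet L => ⨆ y : BSet L, (y.mem K ⊓ bdV v A W x y)) := by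
    refine BSet.Ext.iSup fun y => ?_
    exact BSet.Ext.inf (BSet.Ext.const _) (((ex2 L J v K A).2.2.2.2.2.1 W y).2)
  have hcm := (cmp_ L K).1 _ hpr
  rw [eq_bot_iff]
  unfold psC
  rw [inf_iSup_eq]
  refine iSup_le fun c => ?_
  refine le_trans (inf_le_inf_right _ (hb c)) ?_
  rw [iSup_inf_eq]
  refine iSup_le fun x => ?_
  refine le_trans (inf_le_inf_left _ (iInf_le _ x)) ?_
  rw [hcm x]
  exact bool _ _ _

end UN.PkLGZ
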